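import Pool.Agent.H20.HY.Slow
import Pool.Agent.H61.CZ.Inst

/-!
# Gromov hyperbolic CAT(0) spaces

A Gromov hyperbolic CAT(0) space with a Lipschitz partition of unity (for instance the barycentric
coordinates of a polyhedral complex with finitely many shapes) has property A. So a group which acts on
it by isometries and with finitely many shapes has property A if the stabilizers of the points do.
-/

set_option autoImplicit false

namespace Pool.Agent.H20.HY

open Pool.Agent.H97.BLD Pool.Agent.H66.NCL Pool.Agent.H61.CZ Pool.Agent.H4.FC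

universe u v

/-- `X` is Gromov hyperbolic (four point condition) -/
def Hyperbolic (X : Type v) [MetricSpace X] : Prop :=
  ∃ δ : ℝ, ∀ x y z w : X,
    dist x y + dist z w ≤ max (dist x z + dist y w) (dist x w + dist y z) + δ

variable {X : Type v} [MetricSpace X]

theorem Hyperbolic.slowDiv (h : Hyperbolic X) (o : X) : SlowDiv X o := by
  obtain ⟨δ, h⟩ := h
  have hδ : 0 ≤ δ := by
    have h1 := h o o o o
    simp only [dist_self, add_zero, max_self, zero_add] at h1
    exact h1
  intro η t₀ hη
  refine ⟨max t₀ (4 * δ ^ 2 / η), le_max_left _ _, ?_⟩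
  intro x y p q hxy hpq hp hq ht
  have h1 : dist p y ≤ dist q y + δ := by
    have h2 := h p y x o
    have h3 : max (dist p x + dist y o) (dist p o + dist y x) ≤ dist p x + dist y o := by
      refine max_le le_rfl ?_
      rw [dist_comm p o, dist_comm y o, ← hq, dist_comm y x, hpq]
      have h4 : 0 ≤ dist q y := dist_nonneg
      linarith
    rw [dist_comm x o, ← hp, dist_comm y o] at h2
    rw [dist_comm y o] at h3
    linarith
  have h2 : dist p q ≤ 2 * δ := by
    have h2 := h p q y o
    have h3 : max (dist p y + dist q o) (dist p o + dist q y) ≤ dist o q + dist q y + δ := by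
      refine max_le ?_ ?_
      · rw [dist_comm q o]
        linarith
      · rw [dist_comm p o, hpq]
        linarith
    rw [dist_comm y o, ← hq] at h2
    linarith
  have h3 : dist p q ^ 2 ≤ (2 * δ) ^ 2 := pow_le_pow_left₀ dist_nonneg h2 2
  have h4 : 4 * δ ^ 2 / η ≤ max t₀ (4 * δ ^ 2 / η) := le_max_right _ _
  rw [div_le_iff₀ hη] at h4
  nlinarith

/-- **Gromov hyperbolic CAT(0) spaces with a Lipschitz partition of unity have property A.** -/
theorem spaceA_of_hyperbolic [Nonempty X] (hX : CAT0 X) (hL : LipPart X) (h : Hyperbolic X) :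
    SpaceA X := by
  obtain ⟨o⟩ : Nonempty X := inferInstance
  exact spaceA_of_slowDiv hX hL o (h.slowDiv o)

/-- groups acting on Gromov hyperbolic CAT(0) spaces -/
theorem propertyA_hyperbolic {X G : Type u} [Group G] [MetricSpace X] [MulAction G X] [Nonempty X]
    (hX : CAT0 X) (hd : FinShapes G X) (hL : LipPart X) (h : Hyperbolic X)
    (hst : ∀ x : X, PropertyA ↥(MulAction.stabilizer G x)) : PropertyA G :=
  propertyA_cat0 hX hd (spaceA_of_hyperbolic hX hL h) hst

end Pool.Agent.H20.HY
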