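import Pool.Agent.H20.HY.Window

/-!
# Property A of CAT(0) spaces with slow divergence

Let `X` be a CAT(0) space with a Lipschitz partition of unity in which geodesics to `o` which start at
distance at most `t` are, after the length `t`, at distance at most `√(η t)` (for every `η > 0` and
arbitrarily large `t`). Then `X` has property A. In particular this holds if `X` is Gromov hyperbolic.
-/

set_option autoImplicit false

namespace Pool.Agent.H20.HY

open Pool.Agent.H97.BLD Pool.Agent.H66.NCL Pool.Agent.H61.CZ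

universe u v

variable {X : Type v} [MetricSpace X]

/-- the squares of the radii of the balls which contain `A` -/
def radii (A : Set X) : Set ℝ := {r : ℝ | 0 ≤ r ∧ ∃ c : X, ∀ a ∈ A, dist a c ^ 2 ≤ r}

/-- the square of the circumradius of `A` -/
noncomputable def rad2 (A : Set X) : ℝ := sInf (radii A)

theorem radii_bdd (A : Set X) : BddBelow (radii A) := ⟨0, fun _ h => h.1⟩

theorem rad2_le {A : Set X} {r : ℝ} (hr : 0 ≤ r) (c : X) (h : ∀ a ∈ A, dist a c ^ 2 ≤ r) :
    rad2 A ≤ r := csInf_le (radii_bdd A) ⟨hr, c, h⟩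

theorem rad2_nonneg (A : Set X) : 0 ≤ rad2 A := Real.sInf_nonneg fun _ h => h.1

theorem rad2_mono {A B : Set X} (h : A ⊆ B) (hB : (radii B).Nonempty) : rad2 A ≤ rad2 B :=
  csInf_le_csInf (radii_bdd A) hB fun _ hr => ⟨hr.1, hr.2.imp fun _ hc a ha => hc a (h ha)⟩

theorem exists_center {A : Set X} (h : (radii A).Nonempty) {ε : ℝ} (hε : 0 < ε) :
    ∃ c : X, ∀ a ∈ A, dist a c ^ 2 ≤ rad2 A + ε := by
  obtain ⟨r, hr, hr'⟩ := exists_lt_of_csInf_lt h (lt_add_of_pos_right (sInf (radii A)) hε)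
  obtain ⟨-, c, hc⟩ := hr
  exact ⟨c, fun a ha => (hc a ha).trans hr'.le⟩

/-- two balls which contain `A` and are nearly minimal have nearly the same centre -/
theorem center_dist (hX : CAT0 X) {A : Set X} (hA : A.Nonempty) {c c' : X} {r r' : ℝ}
    (h : ∀ a ∈ A, dist a c ^ 2 ≤ r) (h' : ∀ a ∈ A, dist a c' ^ 2 ≤ r') :
    dist c c' ^ 2 ≤ 2 * (r + r') - 4 * rad2 A := by
  obtain ⟨m, hm⟩ := hX c c' (1 / 2) (by norm_num) (by norm_num)
  have h1 : ∀ a ∈ A, dist a m ^ 2 ≤ (r + r') / 2 - dist c c' ^ 2 / 4 := by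
    intro a ha
    have h2 := hm a
    have h3 := h a ha
    have h4 := h' a ha
    nlinarith
  obtain ⟨a, ha⟩ := hA
  have h2 : 0 ≤ (r + r') / 2 - dist c c' ^ 2 / 4 := (sq_nonneg _).trans (h1 a ha)
  have h3 := rad2_le h2 m h1
  linarith

/-- the points at distance `i` from `o` on the geodesics from `o` to points at distance at most `s`
from `x` -/
def pts (o x : X) (i s : ℝ) : Set X :=
  {p | (i ≤ 0 ∧ p = o) ∨ (0 < i ∧ dist o p = i ∧ ∃ z, dist x z ≤ s ∧
    dist o p + dist p z = dist o z)}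

theorem pts_mono (o : X) {x y : X} {i s t : ℝ} (h : dist x y + s ≤ t) :
    pts o x i s ⊆ pts o y i t := by
  rintro p (hp | ⟨h0, h1, z, h2, h3⟩)
  · exact Or.inl hp
  · refine Or.inr ⟨h0, h1, z, ?_, h3⟩
    have := dist_triangle y x z
    rw [dist_comm y x] at this
    linarith

/-- a point of `pts o x i s` -/
theorem exists_pts (hX : CAT0 X) (o x : X) {i : ℝ} (hi : i ≤ dist o x) :
    ∃ p : X, (∀ s, 0 ≤ s → p ∈ pts o x i s) ∧ (i ≤ 0 → p = o) ∧
      (0 < i → dist o p = i ∧ dist o p + dist p x = dist o x) := by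
  obtain ⟨p, hp1, hp2⟩ := exists_point hX o x i
  refine ⟨p, ?_, hp1, fun h => hp2 h hi⟩
  intro s hs
  rcases le_or_gt i 0 with h | h
  · exact Or.inl ⟨h, hp1 h⟩
  · obtain ⟨h1, h2⟩ := hp2 h hi
    exact Or.inr ⟨h, h1, x, by rw [dist_self]; exact hs, h2⟩

/-- slow divergence -/
def SlowDiv (X : Type v) [MetricSpace X] (o : X) : Prop :=
  ∀ (η t₀ : ℝ), 0 < η → ∃ t : ℝ, t₀ ≤ t ∧ ∀ x y p q : X, dist x y ≤ t → dist o p = dist o q →
    dist o p + dist p x = dist o x → dist o q + dist q y = dist o y → t ≤ dist p x →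
    dist p q ^ 2 ≤ η * t

/-- an elementary inequality -/
theorem le_amgm {a τ : ℝ} (hτ : 0 < τ) : a ≤ τ + a ^ 2 / (4 * τ) := by
  have h1 : 0 ≤ (a - 2 * τ) ^ 2 / (4 * τ) := by positivity
  have h2 : (a - 2 * τ) ^ 2 / (4 * τ) = a ^ 2 / (4 * τ) - a + τ := by
    field_simp
    ring
  linarith

/-- sums over two steps -/
theorem sum_two_step (a : ℕ → ℝ) (M : ℕ) (B : ℝ) (h0 : ∀ k, 0 ≤ a k) (hB : ∀ k ≤ M + 1, a k ≤ B) :
    ∑ k ∈ Finset.range M, (a (k + 2) - a k) ≤ 2 * B := by
  have h1 : ∑ k ∈ Finset.range M, (a (k + 2) - a k) =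
      (∑ k ∈ Finset.range M, (a (k + 1 + 1) - a (k + 1))) +
        ∑ k ∈ Finset.range M, (a (k + 1) - a k) := by
    rw [← Finset.sum_add_distrib]
    exact Finset.sum_congr rfl fun k _ => by ring
  rw [h1, Finset.sum_range_sub (fun k => a (k + 1)), Finset.sum_range_sub]
  have h2 := hB (M + 1) le_rfl
  have h3 := hB M (Nat.le_succ M)
  have h4 := h0 0
  have h5 := h0 (0 + 1)
  linarith

/-- **CAT(0) spaces with slow divergence and a Lipschitz partition of unity have property A.** -/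
theorem spaceA_of_slowDiv (hX : CAT0 X) (hL : LipPart X) (o : X) (hc : SlowDiv X o) :
    SpaceA X := by
  classical
  intro R₀ ε hε
  obtain ⟨Z, β, C, D, hβ0, hβ1, hβL, hβD⟩ := hL
  obtain ⟨R, hRR, hR1⟩ : ∃ R : ℝ, R₀ ≤ R ∧ 1 ≤ R := ⟨max R₀ 1, le_max_left _ _, le_max_right _ _⟩
  have hR0 : 0 < R := by linarith
  obtain ⟨C', hC'⟩ : ∃ C', C' = |C| + 1 := ⟨_, rfl⟩
  have hC0 : 0 < C' := by
    rw [hC']
    positivity
  have hβL' : ∀ x y, n1 (β x - β y) ≤ C' * dist x y := by
    intro x y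
    refine (hβL x y).trans ?_
    have h1 : 0 ≤ dist x y := dist_nonneg
    have h2 := le_abs_self C
    rw [hC']
    nlinarith
  obtain ⟨η, hη⟩ : ∃ η, η = ε ^ 2 / (128 * C' ^ 2 * R) := ⟨_, rfl⟩
  obtain ⟨η', hη'⟩ : ∃ η', η' = ε ^ 2 / (64 * C' ^ 2) := ⟨_, rfl⟩
  obtain ⟨τ, hτ⟩ : ∃ τ, τ = ε / (8 * C') := ⟨_, rfl⟩
  have hη0 : 0 < η := by
    rw [hη]
    positivity
  have hη'0 : 0 < η' := by
    rw [hη']
    positivity
  have hτ0 : 0 < τ := by
    rw [hτ]
    positivity
  obtain ⟨t, ht0, ht⟩ := hc η (R * (16 / ε + 3)) hη0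
  have hε16 : 0 < 16 / ε := by positivity
  have htpos : 0 < t := by
    have : 0 < R * (16 / ε + 3) := by positivity
    linarith
  -- the number of steps
  obtain ⟨K, hK⟩ : ∃ K : ℕ, K = ⌊t / R⌋₊ := ⟨_, rfl⟩
  have hK1 : (K : ℝ) * R ≤ t := by
    have h1 : (K : ℝ) ≤ t / R := hK ▸ Nat.floor_le (by positivity)
    exact (le_div_iff₀ hR0).mp h1
  have hK2 : t < (K + 1) * R := by
    have h1 : t / R < K + 1 := hK ▸ Nat.lt_floor_add_one (t / R)
    exact (div_lt_iff₀ hR0).mp h1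
  have hK3 : 16 / ε + 2 ≤ K := by
    have h1 : R * (16 / ε + 3) < R * (K + 1) := by linarith
    have h2 := lt_of_mul_lt_mul_left h1 hR0.le
    linarith
  obtain ⟨M, hM⟩ : ∃ M : ℕ, K = M + 1 := by
    refine ⟨K - 1, ?_⟩
    have h1 : (0 : ℝ) < K := by linarith
    have h2 : 0 < K := by exact_mod_cast h1
    omega
  have hMK : (K : ℝ) = M + 1 := by exact_mod_cast hM
  have hM0 : (0 : ℝ) ≤ M := Nat.cast_nonneg M
  -- the bound for the circumradii
  have hdep : ∀ (x : X) (i s : ℝ), i ≤ dist o x - t → 0 ≤ s → s ≤ t → ∃ p : X,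
      (i ≤ 0 → p = o) ∧ (0 < i → dist o p = i ∧ dist o p + dist p x = dist o x) ∧
      p ∈ pts o x i s ∧ ∀ q ∈ pts o x i s, dist q p ^ 2 ≤ η * t := by
    intro x i s hi hs0 hst
    obtain ⟨p, hp1, hp2, hp3⟩ := exists_pts hX o x (i := i) (by linarith)
    refine ⟨p, hp2, hp3, hp1 s hs0, ?_⟩
    rintro q (⟨hi0, rfl⟩ | ⟨hi0, hq1, z, hq2, hq3⟩)
    · rw [hp2 hi0, dist_self]
      have h5 : 0 ≤ η * t := by positivity
      linarith
    · obtain ⟨h1, h2⟩ := hp3 hi0
      rw [dist_comm]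
      exact ht x z p q (hq2.trans hst) (by rw [h1, hq1]) h2 hq3 (by linarith)
  have hrad : ∀ (x : X) (i s : ℝ), i ≤ dist o x - t → 0 ≤ s → s ≤ t →
      (radii (pts o x i s)).Nonempty ∧ rad2 (pts o x i s) ≤ η * t := by
    intro x i s hi hs0 hst
    obtain ⟨p, -, -, -, h4⟩ := hdep x i s hi hs0 hst
    have h5 : 0 ≤ η * t := by positivity
    exact ⟨⟨η * t, h5, p, h4⟩, rad2_le h5 p h4⟩
  -- the centres
  have hcen : ∀ (x : X) (i : ℝ) (k : ℕ), ∃ c : X, i ≤ dist o x - t → (k : ℝ) * R ≤ t →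
      ∀ a ∈ pts o x i (k * R), dist a c ^ 2 ≤ rad2 (pts o x i (k * R)) + η' := by
    intro x i k
    by_cases h1 : i ≤ dist o x - t ∧ (k : ℝ) * R ≤ t
    · obtain ⟨c, hc⟩ := exists_center (hrad x i (k * R) h1.1 (by positivity) h1.2).1 hη'0
      exact ⟨c, fun _ _ => hc⟩
    · exact ⟨o, fun h2 h3 => absurd ⟨h2, h3⟩ h1⟩
  choose cen hcen using hcen
  obtain ⟨G, hG⟩ : ∃ G : X → ℤ → Z →₀ ℝ, G = fun (x : X) (i : ℤ) =>
      (1 / (K : ℝ)) • ∑ k ∈ Finset.range K, β (cen x (i : ℝ) k) := ⟨_, rfl⟩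
  have hK0 : 0 < K := by omega
  have hKR : (0 : ℝ) < K := by exact_mod_cast hK0
  have hGp : ∀ x i, (∀ z, 0 ≤ G x i z) ∧ ((G x i).sum fun _ t => t) = 1 := by
    intro x i
    rw [hG]
    exact avg_prob K hK0 (fun k => β (cen x i k)) (fun k z => hβ0 _ _) (fun k => hβ1 _)
  have hcd : ∀ (x y : X) (i : ℝ) (k : ℕ), dist x y ≤ R → i ≤ dist o x - t → i ≤ dist o y - t →
      k < M → dist (cen x i k) (cen y i (k + 1)) ^ 2 ≤
        2 * (rad2 (pts o x i ((k + 2 : ℕ) * R)) - rad2 (pts o x i (k * R))) + 4 * η' := by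
    intro x y i k hxy hx hy hk
    have hkM : (k : ℝ) + 1 ≤ M := by exact_mod_cast hk
    have hk0 : (0 : ℝ) ≤ k := Nat.cast_nonneg k
    have hb0 : (k : ℝ) * R ≤ t := by nlinarith
    have hb1 : ((k + 1 : ℕ) : ℝ) * R ≤ t := by
      push_cast
      nlinarith
    have hb2 : ((k + 2 : ℕ) : ℝ) * R ≤ t := by
      push_cast
      nlinarith
    have h1 : pts o x i (k * R) ⊆ pts o y i ((k + 1 : ℕ) * R) := by
      refine pts_mono o ?_
      push_cast
      nlinarith
    have h2 : pts o y i ((k + 1 : ℕ) * R) ⊆ pts o x i ((k + 2 : ℕ) * R) := by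
      refine pts_mono o ?_
      rw [dist_comm]
      push_cast
      nlinarith
    have h3 := rad2_mono h2 (hrad x i _ hx (by positivity) hb2).1
    obtain ⟨p, -, -, hp, -⟩ := hdep x i (k * R) hx (by positivity) hb0
    have h4 := center_dist hX ⟨p, hp⟩ (hcen x i k hx hb0)
      (fun a ha => hcen y i (k + 1) hy hb1 a (h1 ha))
    linarith
  have hGd : ∀ (x y : X) (i : ℤ), dist x y ≤ R → (i : ℝ) ≤ dist o x - t →
      (i : ℝ) ≤ dist o y - t → n1 (G x i - G y i) ≤ ε / 2 := by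
    intro x y i hxy hx hy
    have hS : (∑ k ∈ Finset.range K, β (cen x i k)) - ∑ k ∈ Finset.range K, β (cen y i k) =
        (∑ k ∈ Finset.range M, (β (cen x i k) - β (cen y i (k + 1)))) +
          (β (cen x i M) - β (cen y i 0)) := by
      rw [hM, Finset.sum_range_succ, Finset.sum_range_succ', Finset.sum_sub_distrib]
      abel
    have h1 : n1 (∑ k ∈ Finset.range M, (β (cen x i k) - β (cen y i (k + 1)))) ≤
        C' * (M * τ + (η * t + η' * M) / τ) := by
      refine (n1_sum_le _ _).trans ?_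
      have h2 : ∀ k ∈ Finset.range M, n1 (β (cen x i k) - β (cen y i (k + 1))) ≤
          C' * (τ + (2 * (rad2 (pts o x i ((k + 2 : ℕ) * R)) - rad2 (pts o x i (k * R))) +
            4 * η') / (4 * τ)) := by
        intro k hk
        refine (hβL' _ _).trans ?_
        refine mul_le_mul_of_nonneg_left ?_ hC0.le
        refine (le_amgm hτ0).trans ?_
        have h3 := hcd x y i k hxy hx hy (Finset.mem_range.mp hk)
        have h4 : (0 : ℝ) < 4 * τ := by positivity
        have h5 := div_le_div_of_nonneg_right h3 h4.le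
        linarith
      refine (Finset.sum_le_sum h2).trans ?_
      rw [← Finset.mul_sum]
      refine mul_le_mul_of_nonneg_left ?_ hC0.le
      rw [Finset.sum_add_distrib, Finset.sum_const, Finset.card_range, nsmul_eq_mul,
        ← Finset.sum_div, Finset.sum_add_distrib, Finset.sum_const, Finset.card_range,
        nsmul_eq_mul, ← Finset.mul_sum]
      have h3 := sum_two_step (fun k : ℕ => rad2 (pts o x i (k * R))) M (η * t)
        (fun k => rad2_nonneg _) (fun k hk => by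
          have hk' : (k : ℝ) ≤ M + 1 := by exact_mod_cast hk
          have hk0 : (0 : ℝ) ≤ k := Nat.cast_nonneg k
          have h4 : (k : ℝ) * R ≤ t := by nlinarith
          exact (hrad x i _ hx (by positivity) h4).2)
      have h4 : (2 * (∑ k ∈ Finset.range M, (rad2 (pts o x i ((k + 2 : ℕ) * R)) -
          rad2 (pts o x i (k * R)))) + M * (4 * η')) / (4 * τ) ≤ (η * t + η' * M) / τ := by
        rw [div_le_div_iff₀ (by positivity) hτ0]
        have h5 : (∑ k ∈ Finset.range M, (rad2 (pts o x i ((k + 2 : ℕ) * R)) -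
          rad2 (pts o x i (k * R)))) ≤ 2 * (η * t) := h3
        nlinarith
      linarith
    have h2 : n1 (β (cen x i M) - β (cen y i 0)) ≤ 2 := by
      have h3 := n1_sub_le (β (cen x i M)) (β (cen y i 0))
      rw [n1_of_prob (hβ0 _) (hβ1 _), n1_of_prob (hβ0 _) (hβ1 _)] at h3
      linarith
    rw [hG]
    show n1 ((1 / (K : ℝ)) • (∑ k ∈ Finset.range K, β (cen x i k)) -
      (1 / (K : ℝ)) • ∑ k ∈ Finset.range K, β (cen y i k)) ≤ ε / 2
    rw [← smul_sub, n1_smul (by positivity), hS, one_div, inv_mul_le_iff₀ hKR]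
    refine (n1_add_le _ _).trans ?_
    -- numerical estimates
    have e1 : C' * (M * τ) ≤ ε * K / 8 := by
      have h3 : C' * (M * τ) = M * (ε / 8) := by
        rw [hτ]
        field_simp
      rw [h3]
      nlinarith
    have e2 : C' * (η * t / τ) ≤ ε * K / 8 := by
      have h3 : C' * (η * t / τ) = ε / 16 * (t / R) := by
        rw [hτ, hη]
        field_simp
        ring
      rw [h3]
      have h4 : t / R ≤ K + 1 := by
        rw [div_le_iff₀ hR0]
        exact hK2.le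
      have h5 : (1 : ℝ) ≤ K := by linarith
      nlinarith
    have e3 : C' * (η' * M / τ) ≤ ε * K / 8 := by
      have h3 : C' * (η' * M / τ) = ε / 8 * M := by
        rw [hτ, hη']
        field_simp
        ring
      rw [h3]
      nlinarith
    have e4 : (2 : ℝ) ≤ ε * K / 8 := by
      have h3 : 16 / ε ≤ K := by linarith
      rw [div_le_iff₀ hε] at h3
      linarith
    have e5 : C' * (M * τ + (η * t + η' * M) / τ) =
        C' * (M * τ) + C' * (η * t / τ) + C' * (η' * M / τ) := by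
      rw [add_div]
      ring
    rw [e5] at h1
    linarith
  -- supports
  have hGs : ∀ N : ℕ, ∃ D' : ℝ, ∀ (x y : X) (z : Z) (i j : ℤ), (i : ℝ) ≤ dist o x - t →
      dist o x - t - N - 1 ≤ i → (j : ℝ) ≤ dist o y - t → dist o y - t - N - 1 ≤ j →
      G x i z ≠ 0 → G y j z ≠ 0 → dist x y ≤ D' := by
    intro N
    have hone : ∀ (x : X) (z : Z) (i : ℤ), (i : ℝ) ≤ dist o x - t →
        dist o x - t - N - 1 ≤ i → G x i z ≠ 0 →
        ∃ p, β p z ≠ 0 ∧ dist x p ≤ t + N + 1 + (η * t + η' + 1) := by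
      intro x z i hi hi' hz
      rw [hG] at hz
      obtain ⟨k, hk, hk'⟩ := exists_of_avg_ne K (fun k => β (cen x i k)) hz
      refine ⟨_, hk', ?_⟩
      have hkK : (k : ℝ) ≤ K := by exact_mod_cast hk.le
      have hk0 : (0 : ℝ) ≤ k := Nat.cast_nonneg k
      have hkt : (k : ℝ) * R ≤ t := by nlinarith
      obtain ⟨p, hp1, hp2, hp3, -⟩ := hdep x i (k * R) hi (by positivity) hkt
      have h1 := hcen x i k hi hkt p hp3
      have h2 := (hrad x i (k * R) hi (by positivity) hkt).2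
      have h3 : dist p (cen x i k) ≤ η * t + η' + 1 := by
        by_contra hcon
        have hcon' := not_le.mp hcon
        have h4 : 0 ≤ η * t := by positivity
        have h5 : 1 ≤ dist p (cen x i k) := by linarith
        nlinarith
      have h4 : dist x p ≤ t + N + 1 := by
        rcases le_or_gt (i : ℝ) 0 with h5 | h5
        · rw [hp1 h5, dist_comm]
          linarith
        · obtain ⟨h6, h7⟩ := hp2 h5
          rw [dist_comm]
          linarith
      have h5 := dist_triangle x p (cen x i k)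
      linarith
    refine ⟨2 * (t + N + 1 + (η * t + η' + 1)) + D, ?_⟩
    intro x y z i j hi hi' hj hj' hx hy
    obtain ⟨p, hp1, hp2⟩ := hone x z i hi hi' hx
    obtain ⟨q, hq1, hq2⟩ := hone y z j hj hj' hy
    have h1 := hβD p q z hp1 hq1
    have h2 := dist_triangle4 x p q y
    rw [dist_comm q y] at h2
    linarith
  obtain ⟨μ, D', h4, h5, h6, h7⟩ := window o R ε t hε Z G (fun x i => (hGp x i).1)
    (fun x i => (hGp x i).2) hGd hGs
  exact ⟨Z, μ, D', h4, h5, fun x y hxy => h6 x y (hxy.trans hRR), h7⟩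

end Pool.Agent.H20.HY
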