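import Pool.Agent.H61.CZ.Contract

/-!
# Averaging over a window of radii

If the probability measures `G x i` (`i` an integer radius at most `dist o x - T`) vary slowly in `x`,
then so do their averages over `N` consecutive radii below `dist o x - T`.
-/

set_option autoImplicit false

namespace Pool.Agent.H20.HY

open Pool.Agent.H97.BLD Pool.Agent.H66.NCL Pool.Agent.H61.CZ

universe u v

variable {X : Type v} [MetricSpace X]

theorem sum_finsetSum {Z : Type v} {ι : Type*} (s : Finset ι) (f : ι → Z →₀ ℝ) :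
    ((∑ j ∈ s, f j).sum fun _ t => t) = ∑ j ∈ s, (f j).sum fun _ t => t :=
  (Finsupp.sum_finsetSum_index (fun _ => rfl) (fun _ _ _ => rfl)).symm

theorem sum_smul {Z : Type v} (c : ℝ) (f : Z →₀ ℝ) :
    ((c • f).sum fun _ t => t) = c * f.sum fun _ t => t := by
  rw [Finsupp.sum_smul_index (fun _ => rfl)]
  unfold Finsupp.sum
  rw [Finset.mul_sum]

/-- averages of probability measures -/
theorem avg_prob {Z : Type v} (N : ℕ) (hN : 0 < N) (f : ℕ → Z →₀ ℝ) (h0 : ∀ j z, 0 ≤ f j z)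
    (h1 : ∀ j, ((f j).sum fun _ t => t) = 1) :
    (∀ z, 0 ≤ ((1 / (N : ℝ)) • ∑ j ∈ Finset.range N, f j) z) ∧
      (((1 / (N : ℝ)) • ∑ j ∈ Finset.range N, f j).sum fun _ t => t) = 1 := by
  have hN0 : (0 : ℝ) < N := by exact_mod_cast hN
  constructor
  · intro z
    rw [Finsupp.smul_apply, smul_eq_mul, Finsupp.finsetSum_apply]
    exact mul_nonneg (by positivity) (Finset.sum_nonneg fun j _ => h0 j z)
  · rw [sum_smul, sum_finsetSum, Finset.sum_congr rfl fun j _ => h1 j, Finset.sum_const,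
      Finset.card_range]
    rw [nsmul_eq_mul, mul_one]
    field_simp

theorem exists_of_avg_ne {Z : Type v} (N : ℕ) (f : ℕ → Z →₀ ℝ) {z : Z}
    (h : ((1 / (N : ℝ)) • ∑ j ∈ Finset.range N, f j) z ≠ 0) : ∃ j < N, f j z ≠ 0 := by
  have h1 : (∑ j ∈ Finset.range N, f j) z ≠ 0 := by
    intro h0
    rw [Finsupp.smul_apply, h0, smul_zero] at h
    exact h rfl
  rw [Finsupp.finsetSum_apply] at h1
  obtain ⟨j, hj, h2⟩ := Finset.exists_ne_zero_of_sum_ne_zero h1
  exact ⟨j, Finset.mem_range.mp hj, h2⟩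

/-- **Averaging over a window of radii.** -/
theorem window (o : X) (R ε T : ℝ) (hε : 0 < ε) (Z : Type v) (G : X → ℤ → Z →₀ ℝ)
    (h0 : ∀ x i z, 0 ≤ G x i z) (h1 : ∀ x i, ((G x i).sum fun _ t => t) = 1)
    (h2 : ∀ (x y : X) (i : ℤ), dist x y ≤ R → (i : ℝ) ≤ dist o x - T → (i : ℝ) ≤ dist o y - T →
      n1 (G x i - G y i) ≤ ε / 2)
    (h3 : ∀ N : ℕ, ∃ D : ℝ, ∀ (x y : X) (z : Z) (i j : ℤ), (i : ℝ) ≤ dist o x - T →
      dist o x - T - N - 1 ≤ i → (j : ℝ) ≤ dist o y - T → dist o y - T - N - 1 ≤ j →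
      G x i z ≠ 0 → G y j z ≠ 0 → dist x y ≤ D) :
    ∃ (μ : X → Z →₀ ℝ) (D : ℝ), (∀ x z, 0 ≤ μ x z) ∧
      (∀ x, ((μ x).sum fun _ t => t) = 1) ∧ (∀ x y, dist x y ≤ R → n1 (μ x - μ y) ≤ ε) ∧
      ∀ x y z, μ x z ≠ 0 → μ y z ≠ 0 → dist x y ≤ D := by
  classical
  obtain ⟨k, hk⟩ : ∃ k : ℕ, R + 1 ≤ k := exists_nat_ge _
  obtain ⟨N, hN⟩ : ∃ N : ℕ, 4 * k / ε + 1 ≤ N := exists_nat_ge _
  have hN0 : (0 : ℝ) < N := by
    have : 0 ≤ 4 * k / ε := by positivity
    linarith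
  have hN00 : 0 < N := by exact_mod_cast hN0
  have hNk : 4 * k ≤ ε * N := by
    have h1 : 4 * k / ε ≤ N := by linarith
    rw [div_le_iff₀ hε] at h1
    linarith
  have hcard : ∀ x i, n1 (G x i) = 1 := fun x i => n1_of_prob (h0 x i) (h1 x i)
  obtain ⟨m, hm⟩ : ∃ m : X → ℤ, m = fun x => ⌊dist o x - T⌋ := ⟨_, rfl⟩
  have hm1 : ∀ x, (m x : ℝ) ≤ dist o x - T := by
    intro x
    rw [hm]
    exact Int.floor_le _
  have hm2 : ∀ x, dist o x - T < m x + 1 := by
    intro x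
    rw [hm]
    exact Int.lt_floor_add_one _
  obtain ⟨S, hS⟩ : ∃ S : X → Z →₀ ℝ, S = fun x =>
      ∑ j ∈ Finset.range N, G x (m x - (j : ℕ)) := ⟨_, rfl⟩
  have key : ∀ x y, dist x y ≤ R → m x ≤ m y → n1 (S x - S y) ≤ ε * N := by
    intro x y hxy hle
    obtain ⟨d, hd⟩ : ∃ d : ℕ, m y = m x + d := ⟨(m y - m x).toNat, by
      rw [Int.toNat_of_nonneg (by omega)]
      ring⟩
    have hdk : (d : ℝ) ≤ k := by
      have h1 := hm1 y
      have h2 := hm2 x
      have h3 := dist_triangle o x y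
      have h4 : (m y : ℝ) = m x + d := by exact_mod_cast hd
      linarith
    have h1 : S x - S y = (∑ j ∈ Finset.range N, (G x (m x - (j : ℕ)) - G y (m x - (j : ℕ)))) -
        ((∑ j ∈ Finset.range N, G y (m x + d - (j : ℕ))) -
          ∑ j ∈ Finset.range N, G y (m x - (j : ℕ))) := by
      rw [hS, Finset.sum_sub_distrib]
      show (∑ j ∈ Finset.range N, G x (m x - (j : ℕ))) -
        (∑ j ∈ Finset.range N, G y (m y - (j : ℕ))) = _
      rw [hd]
      abel
    have h2' := n1_window (fun i : ℤ => G y i) (fun i => hcard _ _) N (m x) d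
    have h3 : n1 (∑ j ∈ Finset.range N, (G x (m x - (j : ℕ)) - G y (m x - (j : ℕ)))) ≤
        N * (ε / 2) := by
      refine (n1_sum_le _ _).trans ?_
      have hcn : (N : ℝ) * (ε / 2) = ∑ _j ∈ Finset.range N, ε / 2 := by
        rw [Finset.sum_const, Finset.card_range, nsmul_eq_mul]
      rw [hcn]
      refine Finset.sum_le_sum fun j _ => ?_
      have hle' : ((m x - (j : ℕ) : ℤ) : ℝ) ≤ m x := by
        push_cast
        have : (0 : ℝ) ≤ (j : ℝ) := Nat.cast_nonneg j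
        linarith
      have hle'' : (m x : ℝ) ≤ m y := by exact_mod_cast hle
      have h7 := hm1 x
      have h8 := hm1 y
      exact h2 x y _ hxy (by linarith) (by linarith)
    have h4 := n1_sub_le (∑ j ∈ Finset.range N, (G x (m x - (j : ℕ)) - G y (m x - (j : ℕ))))
      ((∑ j ∈ Finset.range N, G y (m x + d - (j : ℕ))) -
        ∑ j ∈ Finset.range N, G y (m x - (j : ℕ)))
    rw [h1]
    have h5 : n1 ((∑ j ∈ Finset.range N, G y (m x + d - (j : ℕ))) -
        ∑ j ∈ Finset.range N, G y (m x - (j : ℕ))) ≤ 2 * d := h2'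
    nlinarith
  obtain ⟨D, hD⟩ := h3 N
  refine ⟨fun x => (1 / (N : ℝ)) • S x, D, ?_, ?_, ?_, ?_⟩
  · intro x z
    rw [hS]
    exact (avg_prob N hN00 (fun j => G x (m x - (j : ℕ))) (fun j z => h0 _ _ _)
      (fun j => h1 _ _)).1 z
  · intro x
    rw [hS]
    exact (avg_prob N hN00 (fun j => G x (m x - (j : ℕ))) (fun j z => h0 _ _ _)
      (fun j => h1 _ _)).2
  · intro x y hxy
    rw [← smul_sub, n1_smul (by positivity)]
    have h1 : n1 (S x - S y) ≤ ε * N := by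
      rcases le_total (m x) (m y) with h | h
      · exact key x y hxy h
      · have h2 := key y x (by rw [dist_comm]; exact hxy) h
        rw [← n1_neg, neg_sub] at h2
        exact h2
    rw [one_div, inv_mul_le_iff₀ hN0]
    linarith
  · intro x y z hx hy
    rw [hS] at hx hy
    obtain ⟨i, hi, hi'⟩ := exists_of_avg_ne N (fun j => G x (m x - (j : ℕ))) hx
    obtain ⟨j, hj, hj'⟩ := exists_of_avg_ne N (fun j => G y (m y - (j : ℕ))) hy
    have hi0 : (0 : ℝ) ≤ (i : ℝ) := Nat.cast_nonneg i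
    have hj0 : (0 : ℝ) ≤ (j : ℝ) := Nat.cast_nonneg j
    have hiN : (i : ℝ) ≤ N := by exact_mod_cast hi.le
    have hjN : (j : ℝ) ≤ N := by exact_mod_cast hj.le
    have h4 := hm1 x
    have h5 := hm1 y
    have h6 := hm2 x
    have h7 := hm2 y
    refine hD x y z (m x - (i : ℕ)) (m y - (j : ℕ)) ?_ ?_ ?_ ?_ hi' hj'
    all_goals push_cast
    all_goals linarith

end Pool.Agent.H20.HY
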